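import Mathlib
import Pool.Agent.V1123.HeisRot
import Pool.Agent.V1123.GcdSum

set_option autoImplicit false

namespace Pool.Agent.Results.MP_eff972_al.NonPolyAutGrowth

open Pool.Agent.V1123.BallGrowth Pool.Agent.V1123.HeisRot Pool.Agent.V1123.HeisRot.GG

/-- The orbit of `g` under the automorphism group of `G`. -/
def autOrbit {G : Type} [Group G] (g : G) : Set G := {h : G | ∃ α : G ≃* G, α g = h}

/-- The automorphic growth function: the number of orbits of the automorphism group that meet the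
ball of radius `n`. -/
noncomputable def autGrowth {G : Type} [Group G] (S : Finset G) (n : ℕ) : ℕ :=
  {O : Set G | ∃ g ∈ ball S n, O = autOrbit g}.ncard

/-- `f ≼ g`: there is an integer `c ≥ 1` with `f n ≤ c * g (c * n + c) + c` for all `n`. -/
def Dom (f g : ℕ → ℕ) : Prop := ∃ c : ℕ, 1 ≤ c ∧ ∀ n : ℕ, f n ≤ c * g (c * n + c) + c

section General

variable {G : Type} [Group G]

theorem growth_eq (S : Finset G) (n : ℕ) : autGrowth S n = (autOrbit '' ball S n).ncard := by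
  unfold autGrowth
  congr 1
  ext O
  constructor
  · rintro ⟨g, hg, rfl⟩; exact ⟨g, hg, rfl⟩
  · rintro ⟨g, hg, rfl⟩; exact ⟨g, hg, rfl⟩

theorem autOrbit_eq (g h : G) (hgh : h ∈ autOrbit g) : autOrbit h = autOrbit g := by
  obtain ⟨α, rfl⟩ := hgh
  ext k
  constructor
  · rintro ⟨γ, rfl⟩; exact ⟨α.trans γ, rfl⟩
  · rintro ⟨γ, rfl⟩; exact ⟨α.symm.trans γ, by simp⟩

theorem self_mem (g : G) : g ∈ autOrbit g := ⟨MulEquiv.refl G, rfl⟩

theorem growth_le_of_sub (S S' : Finset G) (n m : ℕ) (h : ball S n ⊆ ball S' m) :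
    autGrowth S n ≤ autGrowth S' m := by
  rw [growth_eq, growth_eq]
  exact Set.ncard_le_ncard (Set.image_mono h) ((ball_finite S' m).image _)

theorem growth_mono (S : Finset G) {m n : ℕ} (h : m ≤ n) : autGrowth S m ≤ autGrowth S n :=
  growth_le_of_sub S S m n (ball_mono S h)

theorem ball_compare (S S' : Finset G) (hS' : Subgroup.closure (S' : Set G) = ⊤) :
    ∃ C : ℕ, 1 ≤ C ∧ ∀ n, ball S n ⊆ ball S' (C * n) := by
  have hfin := finite_gen S
  obtain ⟨K, hK⟩ : ∃ K, ∀ i : {x : G // x ∈ S ∨ x⁻¹ ∈ S}, i.1 ∈ ball S' K := by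
    classical
    have := Fintype.ofFinite {x : G // x ∈ S ∨ x⁻¹ ∈ S}
    choose f hf using fun i : {x : G // x ∈ S ∨ x⁻¹ ∈ S} => exists_mem_ball S' hS' i.1
    refine ⟨∑ i, f i, fun i => ball_mono S' ?_ (hf i)⟩
    exact Finset.single_le_sum (f := f) (fun _ _ => Nat.zero_le _) (Finset.mem_univ i)
  refine ⟨K + 1, by omega, fun n g hg => ?_⟩
  revert n g hg
  refine ball_induction S _ (fun n => one_mem_ball S' _) ?_
  intro n x g hx ih
  have := mul_mem_ball S' _ _ _ _ (hK ⟨x, hx⟩) ih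
  refine ball_mono S' ?_ this
  nlinarith

end General

/-- The generating set. -/
noncomputable def S0 : Finset GG := by
  classical
  exact {N 1 0 0, N 0 1 0, N 0 0 1, rho}

theorem mem_S0 (x : GG) : x ∈ S0 ↔ x = N 1 0 0 ∨ x = N 0 1 0 ∨ x = N 0 0 1 ∨ x = rho := by
  classical
  unfold S0
  simp only [Finset.mem_insert, Finset.mem_singleton]

theorem N_eq (m n z : ℤ) : N m n z = (N 1 0 0) ^ m * (N 0 1 0) ^ n * (N 0 0 1) ^ (z - m * n) := by
  rw [N_zpow, N_zpow, N_zpow, N_mul, N_mul]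
  ext <;> simp only [N] <;> ring

theorem S0_gen : Subgroup.closure (S0 : Set GG) = ⊤ := by
  rw [eq_top_iff]
  rintro g -
  set H := Subgroup.closure (S0 : Set GG)
  have h1 : N 1 0 0 ∈ H := Subgroup.subset_closure (by rw [Finset.mem_coe, mem_S0]; tauto)
  have h2 : N 0 1 0 ∈ H := Subgroup.subset_closure (by rw [Finset.mem_coe, mem_S0]; tauto)
  have h3 : N 0 0 1 ∈ H := Subgroup.subset_closure (by rw [Finset.mem_coe, mem_S0]; tauto)
  have h4 : rho ∈ H := Subgroup.subset_closure (by rw [Finset.mem_coe, mem_S0]; tauto)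
  have hN : ∀ m n z, N m n z ∈ H := by
    intro m n z
    rw [N_eq]
    exact H.mul_mem (H.mul_mem (H.zpow_mem h1 _) (H.zpow_mem h2 _)) (H.zpow_mem h3 _)
  rcases eps_cases g with ⟨hc, hd⟩ | ⟨hc, hd⟩ | ⟨hc, hd⟩ | ⟨hc, hd⟩
  · rw [eq_N g hc hd]; exact hN _ _ _
  · have : g = N g.a g.b g.z * (rho * rho) := by
      ext <;> simp [mul_a, mul_b, mul_c, mul_d, mul_z, N, rho, hc, hd]
    rw [this]
    exact H.mul_mem (hN _ _ _) (H.mul_mem h4 h4)
  · have : g = N g.a g.b g.z * rho := by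
      ext <;> simp [mul_a, mul_b, mul_c, mul_d, mul_z, N, rho, hc, hd]
    rw [this]
    exact H.mul_mem (hN _ _ _) h4
  · have : g = N g.a g.b g.z * rho⁻¹ := by
      ext <;> simp [mul_a, mul_b, mul_c, mul_d, mul_z, N, rho, hc, hd, inv_a, inv_b, inv_c, inv_d,
        inv_z]
    rw [this]
    exact H.mul_mem (hN _ _ _) (H.inv_mem h4)

/-! ### Lower bound -/

theorem mem_ball_F (m n z : ℕ) : N m n (m * n + z) ∈ ball S0 (m + n + z) := by
  have h1 : N 1 0 0 ∈ ball S0 1 := mem_ball_one S0 _ (Or.inl ((mem_S0 _).2 (by tauto)))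
  have h2 : N 0 1 0 ∈ ball S0 1 := mem_ball_one S0 _ (Or.inl ((mem_S0 _).2 (by tauto)))
  have h3 : N 0 0 1 ∈ ball S0 1 := mem_ball_one S0 _ (Or.inl ((mem_S0 _).2 (by tauto)))
  have hpow : ∀ (g : GG) (a : ℕ), g ∈ ball S0 1 → g ^ a ∈ ball S0 a := by
    intro g a hg
    induction a with
    | zero => rw [pow_zero]; exact one_mem_ball S0 _
    | succ a ih =>
      rw [pow_succ]
      exact mul_mem_ball S0 _ _ _ _ ih hg
  have e : N m n (m * n + z) = (N 1 0 0) ^ m * (N 0 1 0) ^ n * (N 0 0 1) ^ z := by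
    rw [N_pow, N_pow, N_pow, N_mul, N_mul]
    ext <;> simp only [N] <;> ring
  rw [e]
  exact mul_mem_ball S0 _ _ _ _ (mul_mem_ball S0 _ _ _ _ (hpow _ m h1) (hpow _ n h2)) (hpow _ z h3)

theorem growth_ge (L : ℕ) :
    ∑ m ∈ Finset.Ioc 0 L, ∑ n ∈ Finset.Ioc 0 L, Nat.gcd m n ≤ 4 * autGrowth S0 (3 * L) := by
  classical
  let F : Finset (Σ _ : ℕ × ℕ, ℕ) := (Finset.Ioc 0 L ×ˢ Finset.Ioc 0 L).sigma
    (fun p => Finset.range (Nat.gcd p.1 p.2))
  have hF : F.card = ∑ m ∈ Finset.Ioc 0 L, ∑ n ∈ Finset.Ioc 0 L, Nat.gcd m n := by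
    rw [Finset.card_sigma, Finset.sum_product]
    simp only [Finset.card_range]
  have hmemF : ∀ x : (Σ _ : ℕ × ℕ, ℕ), x ∈ F ↔ (0 < x.1.1 ∧ x.1.1 ≤ L) ∧ (0 < x.1.2 ∧ x.1.2 ≤ L) ∧
      x.2 < Nat.gcd x.1.1 x.1.2 := by
    intro x
    simp only [F, Finset.mem_sigma, Finset.mem_product, Finset.mem_Ioc, Finset.mem_range]
    tauto
  let f : (Σ _ : ℕ × ℕ, ℕ) → Set GG := fun x => autOrbit (N x.1.1 x.1.2 (x.1.1 * x.1.2 + x.2))
  have hfib : ∀ b ∈ F.image f, (F.filter (fun x => f x = b)).card ≤ 4 := by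
    intro b hb
    obtain ⟨⟨⟨m0, n0⟩, z0⟩, hx0, rfl⟩ := Finset.mem_image.1 hb
    rw [hmemF] at hx0
    simp only at hx0
    set g := Nat.gcd m0 n0 with hg
    have hsub : F.filter (fun x => f x = f ⟨(m0, n0), z0⟩) ⊆
        {⟨(m0, n0), z0⟩, ⟨(m0, n0), (g - z0) % g⟩, ⟨(n0, m0), z0⟩, ⟨(n0, m0), (g - z0) % g⟩} := by
      rintro ⟨⟨m, n⟩, z⟩ hx
      rw [Finset.mem_filter, hmemF] at hx
      obtain ⟨hx, hfx⟩ := hx
      simp only at hx
      have hmem : N m n (m * n + z) ∈ autOrbit (N m0 n0 (m0 * n0 + z0)) := by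
        have := self_mem (N m n (m * n + z))
        simp only [f] at hfx
        rw [hfx] at this
        exact this
      obtain ⟨α, hα⟩ := hmem
      obtain ⟨h1, h2⟩ := orbit_desc α m0 n0 _ m n _ (by exact_mod_cast hx0.1.1)
        (by exact_mod_cast hx0.2.1.1) (by exact_mod_cast hx.1.1) (by exact_mod_cast hx.2.1.1) hα
      have hgcd : Int.gcd (m0 : ℤ) (n0 : ℤ) = g := rfl
      rw [hgcd] at h2
      have hmn : (m : ℤ) * n = m0 * n0 ∧ Nat.gcd m n = g := by
        rcases h1 with ⟨h3, h4⟩ | ⟨h3, h4⟩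
        · have h3' : m = m0 := by exact_mod_cast h3
          have h4' : n = n0 := by exact_mod_cast h4
          subst h3'; subst h4'
          exact ⟨rfl, hg.symm⟩
        · have h3' : m = n0 := by exact_mod_cast h3
          have h4' : n = m0 := by exact_mod_cast h4
          subst h3'; subst h4'
          exact ⟨mul_comm _ _, by rw [hg, Nat.gcd_comm]⟩
      have hzg : z < g := by rw [← hmn.2]; exact hx.2.2
      have hz0g : z0 < g := hx0.2.2
      have hgm : (g : ℤ) ∣ m0 := by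
        have : g ∣ m0 := Nat.gcd_dvd_left _ _
        exact_mod_cast this
      have hz : z = z0 ∨ z = (g - z0) % g := by
        rcases h2 with h2 | h2
        · left
          have e : (m : ℤ) * n + z - (m0 * n0 + z0) = (z : ℤ) - z0 := by rw [hmn.1]; ring
          rw [e] at h2
          have h5 := Int.eq_zero_of_abs_lt_dvd h2 (by rw [abs_lt]; constructor <;> omega)
          omega
        · right
          have e : (m : ℤ) * n + z + (m0 * n0 + z0) = ((z : ℤ) + z0) + m0 * (2 * n0) := by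
            rw [hmn.1]; ring
          rw [e] at h2
          have h5 : (g : ℤ) ∣ (z : ℤ) + z0 :=
            (dvd_add_left (Dvd.dvd.mul_right hgm _)).1 h2
          have h6 : g ∣ z + z0 := by exact_mod_cast h5
          obtain ⟨t, ht⟩ := h6
          have ht2 : t < 2 := by
            by_contra hcon
            push Not at hcon
            have : g * 2 ≤ g * t := Nat.mul_le_mul_left _ hcon
            omega
          interval_cases t
          · have hz00 : z0 = 0 := by omega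
            have hz0' : z = 0 := by omega
            rw [hz00, hz0', Nat.sub_zero, Nat.mod_self]
          · have : g - z0 = z := by omega
            rw [this, Nat.mod_eq_of_lt hzg]
      simp only [Finset.mem_insert, Finset.mem_singleton]
      rcases h1 with ⟨h3, h4⟩ | ⟨h3, h4⟩
      · have h3' : m = m0 := by exact_mod_cast h3
        have h4' : n = n0 := by exact_mod_cast h4
        rcases hz with rfl | hz
        · left; rw [h3', h4']
        · right; left; rw [h3', h4', hz]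
      · have h3' : m = n0 := by exact_mod_cast h3
        have h4' : n = m0 := by exact_mod_cast h4
        rcases hz with rfl | hz
        · right; right; left; rw [h3', h4']
        · right; right; right; rw [h3', h4', hz]
    exact (Finset.card_le_card hsub).trans Finset.card_le_four
  have h1 := Finset.card_le_mul_card_image F 4 hfib
  rw [hF] at h1
  refine h1.trans (Nat.mul_le_mul_left 4 ?_)
  rw [growth_eq, ← Set.ncard_coe_finset]
  refine Set.ncard_le_ncard ?_ ((ball_finite S0 _).image _)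
  intro O hO
  rw [Finset.coe_image] at hO
  obtain ⟨⟨⟨m, n⟩, z⟩, hx, rfl⟩ := hO
  rw [Finset.mem_coe, hmemF] at hx
  simp only at hx
  refine ⟨_, ball_mono S0 ?_ (mem_ball_F m n z), rfl⟩
  have : Nat.gcd m n ≤ m := Nat.gcd_le_left _ hx.1.1
  omega

/-! ### Upper bound -/

/-- Shape of the elements of the ball. -/
theorem ball_shape : ∀ (n : ℕ) (g : GG), g ∈ ball S0 n →
    |g.a| ≤ n ∧ |g.b| ≤ n ∧ |g.z| ≤ (n : ℤ) ^ 2 := by
  refine ball_induction S0 _ ?_ ?_
  · intro n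
    simp only [one_a, one_b, one_z, abs_zero]
    refine ⟨by positivity, by positivity, by positivity⟩
  · rintro n x g hx ⟨h1, h2, h3⟩
    have a1 := abs_le.1 h1
    have a2 := abs_le.1 h2
    have a3 := abs_le.1 h3
    have hcases : x = N 1 0 0 ∨ x = N (-1) 0 0 ∨ x = N 0 1 0 ∨ x = N 0 (-1) 0 ∨ x = N 0 0 1 ∨
        x = N 0 0 (-1) ∨ x = rho ∨ x = rho⁻¹ := by
      rcases hx with h | h
      · rw [mem_S0] at h; tauto
      · rw [mem_S0] at h
        rcases h with h | h | h | h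
        · right; left; rw [← inv_inv x, h, N_inv]; rfl
        · right; right; right; left; rw [← inv_inv x, h, N_inv]; rfl
        · right; right; right; right; right; left; rw [← inv_inv x, h, N_inv]; rfl
        · right; right; right; right; right; right; right; rw [← inv_inv x, h]
    have hn : (0 : ℤ) ≤ n := by positivity
    rw [abs_le, abs_le, abs_le]
    push_cast
    rcases hcases with rfl | rfl | rfl | rfl | rfl | rfl | rfl | rfl <;>
      simp only [mul_a, mul_b, mul_z, N, rho, inv_a, inv_b, inv_z, inv_c, inv_d] <;>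
      refine ⟨⟨?_, ?_⟩, ⟨?_, ?_⟩, ⟨?_, ?_⟩⟩ <;> nlinarith

theorem conj_orbit (w g : GG) : autOrbit g = autOrbit (w * g * w⁻¹) := by
  refine (autOrbit_eq g (w * g * w⁻¹) ⟨MulAut.conj w, rfl⟩).symm

/-- Reduction of the central coordinate. -/
theorem reduce_N (a b z : ℤ) (h : ¬ (a = 0 ∧ b = 0)) :
    ∃ z' : ℕ, z' < 2 * Int.gcd a b ∧ autOrbit (N a b z) = autOrbit (N a b z') := by
  have hg : 0 < Int.gcd a b := by
    rw [Int.gcd_pos_iff]
    by_contra hcon
    push Not at hcon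
    exact h hcon
  set g := Int.gcd a b with hgdef
  have hg' : (0 : ℤ) < 2 * g := by
    have : (0 : ℤ) < g := by exact_mod_cast hg
    linarith
  have hbez : (g : ℤ) = a * Int.gcdA a b + b * Int.gcdB a b := Int.gcd_eq_gcd_ab a b
  set q := z / (2 * g) with hq
  have hmod : z % (2 * g) = z - 2 * g * q := by
    have := Int.emod_def z (2 * g)
    rw [this]
  have h1 := Int.emod_nonneg z hg'.ne'
  have h2 := Int.emod_lt_of_pos z hg'
  refine ⟨(z % (2 * g)).toNat, ?_, ?_⟩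
  · omega
  · rw [conj_orbit (N (-(q * Int.gcdB a b)) (q * Int.gcdA a b) 0) (N a b z)]
    congr 1
    rw [N_inv, N_mul, N_mul]
    ext
    · simp only [N]; ring
    · simp only [N]; ring
    · simp only [N]
      rw [Int.toNat_of_nonneg h1, hmod]
      linear_combination (2 * q) * hbez
    · rfl
    · rfl

theorem det_bound (x y x' y' A B : ℤ) (hx : |x| ≤ A) (hy : |y| ≤ A) (hx' : |x'| ≤ B)
    (hy' : |y'| ≤ B) : |x * y' - y * x'| ≤ 2 * (A * B) := by
  have hA : 0 ≤ A := (abs_nonneg x).trans hx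
  have h1 : |x * y'| ≤ A * B := by
    rw [abs_mul]; exact mul_le_mul hx hy' (abs_nonneg _) hA
  have h2 : |y * x'| ≤ A * B := by
    rw [abs_mul]; exact mul_le_mul hy hx' (abs_nonneg _) hA
  have h3 := abs_sub (x * y') (y * x')
  linarith

/-- Reduction outside the nilpotent part. -/
theorem reduce_out (n : ℕ) (hn : 1 ≤ n) (g : GG) (hg : ¬ (g.c = 1 ∧ g.d = 0)) (ha : |g.a| ≤ n)
    (hb : |g.b| ≤ n) (hz : |g.z| ≤ (n : ℤ) ^ 2) :
    ∃ g' : GG, autOrbit g = autOrbit g' ∧ (g'.a = 0 ∨ g'.a = 1) ∧ (g'.b = 0 ∨ g'.b = 1) ∧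
      g'.c = g.c ∧ g'.d = g.d ∧ |g'.z| ≤ 17 * (n : ℤ) ^ 2 := by
  have hn' : (1 : ℤ) ≤ n := by exact_mod_cast hn
  have a1 := abs_le.1 ha
  have a2 := abs_le.1 hb
  -- the conjugating vector
  obtain ⟨w1, w2, hw1, hw2, e1, e2⟩ : ∃ w1 w2 : ℤ, |w1| ≤ 2 * n ∧ |w2| ≤ 2 * n ∧
      w1 + g.a - (g.c * w1 - g.d * w2) = g.a % 2 ∧
      w2 + g.b - (g.d * w1 + g.c * w2) = g.b % 2 := by
    rcases eps_cases g with ⟨hc, hd⟩ | ⟨hc, hd⟩ | ⟨hc, hd⟩ | ⟨hc, hd⟩
    · exact absurd ⟨hc, hd⟩ hg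
    · refine ⟨-(g.a / 2), -(g.b / 2), ?_, ?_, ?_, ?_⟩
      · rw [abs_le]; constructor <;> omega
      · rw [abs_le]; constructor <;> omega
      · rw [hc, hd]; omega
      · rw [hc, hd]; omega
    · refine ⟨-(g.a / 2) + g.b / 2, -(g.b / 2) - g.a / 2, ?_, ?_, ?_, ?_⟩
      · rw [abs_le]; constructor <;> omega
      · rw [abs_le]; constructor <;> omega
      · rw [hc, hd]; omega
      · rw [hc, hd]; omega
    · refine ⟨-(g.a / 2) - g.b / 2, -(g.b / 2) + g.a / 2, ?_, ?_, ?_, ?_⟩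
      · rw [abs_le]; constructor <;> omega
      · rw [abs_le]; constructor <;> omega
      · rw [hc, hd]; omega
      · rw [hc, hd]; omega
  have hcd : |g.c * w1 - g.d * w2| ≤ 2 * n ∧ |g.d * w1 + g.c * w2| ≤ 2 * n := by
    rcases eps_cases g with ⟨hc, hd⟩ | ⟨hc, hd⟩ | ⟨hc, hd⟩ | ⟨hc, hd⟩ <;> rw [hc, hd] <;>
      constructor <;> simp <;> first | exact hw1 | exact hw2
  set w := N w1 w2 0 with hw
  refine ⟨w * g * w⁻¹, conj_orbit w g, ?_, ?_, ?_, ?_, ?_⟩
  · have : (w * g * w⁻¹).a = g.a % 2 := by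
      rw [← e1, hw, N_inv]
      simp only [mul_a, mul_b, mul_c, mul_d, N]; ring
    rw [this]; omega
  · have : (w * g * w⁻¹).b = g.b % 2 := by
      rw [← e2, hw, N_inv]
      simp only [mul_a, mul_b, mul_c, mul_d, N]; ring
    rw [this]; omega
  · rw [hw, N_inv]; simp only [mul_a, mul_b, mul_c, mul_d, N]; ring
  · rw [hw, N_inv]; simp only [mul_a, mul_b, mul_c, mul_d, N]; ring
  · have e3 : (w * g * w⁻¹).z = g.z + (w1 * g.b - w2 * g.a) -
        ((w1 + g.a) * (g.d * w1 + g.c * w2) - (w2 + g.b) * (g.c * w1 - g.d * w2)) := by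
      rw [hw, N_inv]; simp only [mul_a, mul_b, mul_c, mul_d, mul_z, N]; ring
    rw [e3]
    have b1 := det_bound w1 w2 g.a g.b (2 * n) n hw1 hw2 ha hb
    have b2 := det_bound (w1 + g.a) (w2 + g.b) (g.c * w1 - g.d * w2) (g.d * w1 + g.c * w2) (3 * n)
      (2 * n) ((abs_add_le _ _).trans (by linarith)) ((abs_add_le _ _).trans (by linarith))
      hcd.1 hcd.2
    have b3 := abs_sub (g.z + (w1 * g.b - w2 * g.a))
      ((w1 + g.a) * (g.d * w1 + g.c * w2) - (w2 + g.b) * (g.c * w1 - g.d * w2))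
    have b4 := abs_add_le g.z (w1 * g.b - w2 * g.a)
    nlinarith

theorem growth_le (n : ℕ) (hn : 1 ≤ n) :
    (autGrowth S0 n : ℝ) ≤ 500 * (n : ℝ) ^ 2 * Real.sqrt n := by
  classical
  set V : Finset (ℤ × ℤ) := ((Finset.Icc (-(n : ℤ)) n) ×ˢ (Finset.Icc (-(n : ℤ)) n)).filter
    (fun v => v ≠ (0, 0)) with hV
  let A : Finset (Set GG) := (V.sigma (fun v => Finset.range (2 * Int.gcd v.1 v.2))).image
    (fun x : (Σ _ : ℤ × ℤ, ℕ) => autOrbit (N x.1.1 x.1.2 x.2))
  let B : Finset (Set GG) := (Finset.Icc (-(n : ℤ) ^ 2) ((n : ℤ) ^ 2)).image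
    (fun z => autOrbit (N 0 0 z))
  let ε : Fin 3 → ℤ × ℤ := ![(-1, 0), (0, 1), (0, -1)]
  let C : Finset (Set GG) := ((Finset.univ : Finset (Fin 3)) ×ˢ ((Finset.range 2 ×ˢ Finset.range 2) ×ˢ
    (Finset.Icc (-(17 * (n : ℤ) ^ 2)) (17 * (n : ℤ) ^ 2)))).image
    (fun x : Fin 3 × ((ℕ × ℕ) × ℤ) => if h : (ε x.1).1 ^ 2 + (ε x.1).2 ^ 2 = 1 then
      autOrbit (⟨x.2.1.1, x.2.1.2, x.2.2, (ε x.1).1, (ε x.1).2, h⟩ : GG) else ∅)
  have hsub : autOrbit '' ball S0 n ⊆ ((A ∪ (B ∪ C) : Finset (Set GG)) : Set (Set GG)) := by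
    rintro _ ⟨g, hg, rfl⟩
    obtain ⟨h1, h2, h3⟩ := ball_shape n g hg
    have a1 := abs_le.1 h1
    have a2 := abs_le.1 h2
    have a3 := abs_le.1 h3
    rw [Finset.mem_coe, Finset.mem_union, Finset.mem_union]
    by_cases hN : g.c = 1 ∧ g.d = 0
    · by_cases h0 : g.a = 0 ∧ g.b = 0
      · right; left
        refine Finset.mem_image.2 ⟨g.z, Finset.mem_Icc.2 ⟨by linarith, a3.2⟩, ?_⟩
        have := eq_N g hN.1 hN.2
        rw [h0.1, h0.2] at this
        rw [← this]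
      · left
        obtain ⟨z', hz', ho⟩ := reduce_N g.a g.b g.z h0
        refine Finset.mem_image.2 ⟨⟨(g.a, g.b), z'⟩, ?_, ?_⟩
        · rw [Finset.mem_sigma]
          refine ⟨?_, Finset.mem_range.2 hz'⟩
          rw [hV, Finset.mem_filter, Finset.mem_product, Finset.mem_Icc, Finset.mem_Icc]
          refine ⟨⟨a1, a2⟩, ?_⟩
          intro h
          rw [Prod.mk.injEq] at h
          exact h0 h
        · simp only
          rw [← ho, ← eq_N g hN.1 hN.2]
    · right; right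
      obtain ⟨g', ho, ha', hb', hc', hd', hz'⟩ := reduce_out n hn g hN h1 h2 h3
      have hz'' := abs_le.1 hz'
      obtain ⟨x, hx⟩ : ∃ x : ℕ, (x : ℤ) = g'.a ∧ x < 2 := by
        rcases ha' with h | h
        · exact ⟨0, by rw [h]; rfl, by norm_num⟩
        · exact ⟨1, by rw [h]; rfl, by norm_num⟩
      obtain ⟨y, hy⟩ : ∃ y : ℕ, (y : ℤ) = g'.b ∧ y < 2 := by
        rcases hb' with h | h
        · exact ⟨0, by rw [h]; rfl, by norm_num⟩
        · exact ⟨1, by rw [h]; rfl, by norm_num⟩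
      obtain ⟨i, hi⟩ : ∃ i : Fin 3, ε i = (g'.c, g'.d) := by
        rw [hc', hd']
        rcases eps_cases g with ⟨hc, hd⟩ | ⟨hc, hd⟩ | ⟨hc, hd⟩ | ⟨hc, hd⟩
        · exact absurd ⟨hc, hd⟩ hN
        · exact ⟨0, by rw [hc, hd]; rfl⟩
        · exact ⟨1, by rw [hc, hd]; rfl⟩
        · exact ⟨2, by rw [hc, hd]; rfl⟩
      refine Finset.mem_image.2 ⟨(i, ((x, y), g'.z)), ?_, ?_⟩
      · simp only [Finset.mem_product, Finset.mem_univ, true_and, Finset.mem_range, Finset.mem_Icc]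
        exact ⟨⟨hx.2, hy.2⟩, hz''⟩
      · have h' : (ε i).1 ^ 2 + (ε i).2 ^ 2 = 1 := by rw [hi]; exact g'.h
        simp only [h', dif_pos]
        rw [ho]
        congr 1
        ext
        · exact hx.1
        · exact hy.1
        · rfl
        · simp only [hi]
        · simp only [hi]
  have hA : (A.card : ℝ) ≤ 36 * (n : ℝ) ^ 2 * Real.sqrt n := by
    have h1 : A.card ≤ 2 * ∑ v ∈ V, Int.gcd v.1 v.2 := by
      refine Finset.card_image_le.trans ?_
      rw [Finset.card_sigma, Finset.mul_sum]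
      simp only [Finset.card_range]
      exact le_rfl
    have h2 := Pool.Agent.V1123.GcdSum.gcd_sum_le_real n hn
    have h3 : (A.card : ℝ) ≤ 2 * ((∑ v ∈ V, Int.gcd v.1 v.2 : ℕ) : ℝ) := by exact_mod_cast h1
    linarith
  have hB : B.card ≤ 2 * n ^ 2 + 1 := by
    refine Finset.card_image_le.trans ?_
    rw [Int.card_Icc]
    have : ((n : ℤ) ^ 2 + 1 - -(n : ℤ) ^ 2) = ((2 * n ^ 2 + 1 : ℕ) : ℤ) := by push_cast; ring
    rw [this, Int.toNat_natCast]
  have hC : C.card ≤ 12 * (34 * n ^ 2 + 1) := by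
    refine Finset.card_image_le.trans ?_
    rw [Finset.card_product, Finset.card_product, Finset.card_product, Int.card_Icc]
    have : (17 * (n : ℤ) ^ 2 + 1 - -(17 * (n : ℤ) ^ 2)) = ((34 * n ^ 2 + 1 : ℕ) : ℤ) := by
      push_cast; ring
    rw [this, Int.toNat_natCast]
    simp only [Finset.card_univ, Fintype.card_fin, Finset.card_range]
    apply le_of_eq; ring
  have htot : autGrowth S0 n ≤ A.card + (B.card + C.card) := by
    rw [growth_eq]
    refine (Set.ncard_le_ncard hsub (Finset.finite_toSet _)).trans ?_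
    rw [Set.ncard_coe_finset]
    exact (Finset.card_union_le _ _).trans
      (Nat.add_le_add_left (Finset.card_union_le _ _) _)
  have hn' : (1 : ℝ) ≤ n := by exact_mod_cast hn
  have hs : (1 : ℝ) ≤ Real.sqrt n := by
    rw [Real.one_le_sqrt]; exact hn'
  have hn2 : (1 : ℝ) ≤ (n : ℝ) ^ 2 := one_le_pow₀ hn'
  have h5 : (autGrowth S0 n : ℝ) ≤ A.card + (B.card + C.card) := by exact_mod_cast htot
  have h6 : (B.card : ℝ) ≤ 2 * (n : ℝ) ^ 2 + 1 := by exact_mod_cast hB
  have h7 : (C.card : ℝ) ≤ 12 * (34 * (n : ℝ) ^ 2 + 1) := by exact_mod_cast hC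
  have h8 : (n : ℝ) ^ 2 ≤ (n : ℝ) ^ 2 * Real.sqrt n := le_mul_of_one_le_right (by positivity) hs
  nlinarith

/-- There is a finitely generated group whose automorphic growth is polynomially bounded but is
not equivalent to `n ^ k` for any integer `k ≥ 0`. -/
theorem result : ∃ (G : Type) (_ : Group G), (∃ S : Finset G, Subgroup.closure (S : Set G) = ⊤) ∧
    ∀ S : Finset G, Subgroup.closure (S : Set G) = ⊤ →
      (∃ d : ℕ, Dom (autGrowth S) (fun n => n ^ d)) ∧
      ∀ k : ℕ, ¬ (Dom (autGrowth S) (fun n => n ^ k) ∧ Dom (fun n => n ^ k) (autGrowth S)) := by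
  refine ⟨GG, inferInstance, ⟨S0, S0_gen⟩, fun S hS => ?_⟩
  obtain ⟨C1, hC1, h1⟩ := ball_compare S S0 S0_gen
  obtain ⟨C2, hC2, h2⟩ := ball_compare S0 S hS
  have g1 : ∀ n, autGrowth S n ≤ autGrowth S0 (C1 * n) := fun n => growth_le_of_sub _ _ _ _ (h1 n)
  have g2 : ∀ n, autGrowth S0 n ≤ autGrowth S (C2 * n) := fun n => growth_le_of_sub _ _ _ _ (h2 n)
  have hcub : ∀ n : ℕ, 1 ≤ n → autGrowth S n ≤ 500 * C1 ^ 3 * n ^ 3 := by
    intro n hn
    have hx : 1 ≤ C1 * n := Nat.mul_pos hC1 hn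
    have h3 := growth_le (C1 * n) hx
    have hx' : (1 : ℝ) ≤ ((C1 * n : ℕ) : ℝ) := by exact_mod_cast hx
    have h4 : Real.sqrt ((C1 * n : ℕ) : ℝ) ≤ ((C1 * n : ℕ) : ℝ) := by
      rw [Real.sqrt_le_left (by linarith)]
      nlinarith
    have h5 : (autGrowth S n : ℝ) ≤ 500 * ((C1 * n : ℕ) : ℝ) ^ 2 * ((C1 * n : ℕ) : ℝ) := by
      calc (autGrowth S n : ℝ) ≤ autGrowth S0 (C1 * n) := by exact_mod_cast g1 n
        _ ≤ 500 * ((C1 * n : ℕ) : ℝ) ^ 2 * Real.sqrt ((C1 * n : ℕ) : ℝ) := h3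
        _ ≤ _ := by gcongr
    have h6 : (autGrowth S n : ℝ) ≤ ((500 * C1 ^ 3 * n ^ 3 : ℕ) : ℝ) := by
      refine h5.trans (le_of_eq ?_)
      push_cast; ring
    exact_mod_cast h6
  refine ⟨⟨3, ?_⟩, ?_⟩
  · refine ⟨500 * C1 ^ 3 + autGrowth S 0 + 1, by omega, fun n => ?_⟩
    rcases Nat.eq_zero_or_pos n with rfl | hn
    · omega
    · set c := 500 * C1 ^ 3 + autGrowth S 0 + 1 with hc
      have h3 := hcub n hn
      have h4 : n ≤ c * n + c := by
        have : n ≤ c * n := Nat.le_mul_of_pos_left _ (by omega)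
        omega
      have h5 : n ^ 3 ≤ (c * n + c) ^ 3 := Nat.pow_le_pow_left h4 3
      have h6 : 500 * C1 ^ 3 * n ^ 3 ≤ c * (c * n + c) ^ 3 := Nat.mul_le_mul (by omega) h5
      simp only
      omega
  · rintro k ⟨⟨c, hc, hup⟩, ⟨c', hc', hlo⟩⟩
    simp only at hup hlo
    rcases Nat.lt_or_ge k 3 with hk | hk
    · -- contradiction with the lower bound
      obtain ⟨L, hL, hLs⟩ := Pool.Agent.V1123.GcdSum.gcd_sum_large
        (4 * (c * (4 * c * C2) ^ 2 + c))
      have h3 := growth_ge L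
      have h4 := g2 (3 * L)
      have h5 := hup (C2 * (3 * L))
      set x := c * (C2 * (3 * L)) + c with hx
      have hx1 : 1 ≤ x := by omega
      have hx2 : x ≤ 4 * c * C2 * L := by
        have : c ≤ c * C2 * L := by
          calc c = c * 1 * 1 := by ring
            _ ≤ c * C2 * L := Nat.mul_le_mul (Nat.mul_le_mul_left _ hC2) hL
        have e : c * (C2 * (3 * L)) = 3 * (c * C2 * L) := by ring
        have e2 : 4 * c * C2 * L = 4 * (c * C2 * L) := by ring
        rw [hx, e, e2]; omega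
      have h6 : x ^ k ≤ (4 * c * C2 * L) ^ 2 := by
        calc x ^ k ≤ x ^ 2 := Nat.pow_le_pow_right hx1 (by omega)
          _ ≤ _ := Nat.pow_le_pow_left hx2 2
      have h7 : autGrowth S0 (3 * L) ≤ (c * (4 * c * C2) ^ 2 + c) * L ^ 2 := by
        calc autGrowth S0 (3 * L) ≤ autGrowth S (C2 * (3 * L)) := h4
          _ ≤ c * x ^ k + c := h5
          _ ≤ c * (4 * c * C2 * L) ^ 2 + c * L ^ 2 := by
              apply Nat.add_le_add
              · exact Nat.mul_le_mul_left _ h6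
              · exact Nat.le_mul_of_pos_right _ (by positivity)
          _ = _ := by ring
      have h8 : 4 * autGrowth S0 (3 * L) ≤ 4 * (c * (4 * c * C2) ^ 2 + c) * L ^ 2 := by
        rw [mul_assoc 4]; exact Nat.mul_le_mul_left 4 h7
      omega
    · -- contradiction with the upper bound
      set Q := 2 * c' * C1 with hQ
      have hQ1 : 1 ≤ Q := by
        have : 0 < 2 * c' * C1 := by positivity
        omega
      set t := c' * 500 * Q ^ 3 + c' + 1 with ht
      have ht1 : 1 ≤ t := by omega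
      have h3 := hlo (t ^ 2)
      have hx1 : 1 ≤ C1 * (c' * t ^ 2 + c') := Nat.mul_pos hC1 (by positivity)
      have hx2 : C1 * (c' * t ^ 2 + c') ≤ Q * t ^ 2 := by
        have : c' ≤ c' * t ^ 2 := Nat.le_mul_of_pos_right _ (by positivity)
        calc C1 * (c' * t ^ 2 + c') ≤ C1 * (c' * t ^ 2 + c' * t ^ 2) := by gcongr
          _ = Q * t ^ 2 := by rw [hQ]; ring
      have h4 := growth_le _ hx1
      have h5 := g1 (c' * t ^ 2 + c')
      have hx2' : ((C1 * (c' * t ^ 2 + c') : ℕ) : ℝ) ≤ Q * t ^ 2 := by exact_mod_cast hx2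
      have hsq : Real.sqrt ((C1 * (c' * t ^ 2 + c') : ℕ) : ℝ) ≤ Q * t := by
        rw [Real.sqrt_le_left (by positivity)]
        have hQr : (1 : ℝ) ≤ Q := by exact_mod_cast hQ1
        have ht0 : (0 : ℝ) ≤ (t : ℝ) ^ 2 := by positivity
        calc ((C1 * (c' * t ^ 2 + c') : ℕ) : ℝ) ≤ Q * t ^ 2 := hx2'
          _ ≤ (Q * Q) * t ^ 2 := by gcongr; nlinarith
          _ = (Q * t) ^ 2 := by ring
      have h6 : (autGrowth S (c' * t ^ 2 + c') : ℝ) ≤ 500 * Q ^ 3 * t ^ 5 := by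
        calc (autGrowth S (c' * t ^ 2 + c') : ℝ) ≤ autGrowth S0 (C1 * (c' * t ^ 2 + c')) := by
              exact_mod_cast h5
          _ ≤ 500 * ((C1 * (c' * t ^ 2 + c') : ℕ) : ℝ) ^ 2 *
              Real.sqrt ((C1 * (c' * t ^ 2 + c') : ℕ) : ℝ) := h4
          _ ≤ 500 * (Q * t ^ 2) ^ 2 * (Q * t) := by gcongr
          _ = _ := by ring
      have h7 : autGrowth S (c' * t ^ 2 + c') ≤ 500 * Q ^ 3 * t ^ 5 := by exact_mod_cast h6
      have h8 : t ^ 6 ≤ (t ^ 2) ^ k := by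
        calc t ^ 6 = (t ^ 2) ^ 3 := by ring
          _ ≤ (t ^ 2) ^ k := Nat.pow_le_pow_right (by positivity) hk
      have h9 : t ^ 6 ≤ c' * (500 * Q ^ 3 * t ^ 5) + c' :=
        h8.trans (h3.trans (Nat.add_le_add_right (Nat.mul_le_mul_left _ h7) _))
      have h10 : c' * (500 * Q ^ 3 * t ^ 5) + c' < t ^ 6 := by
        have h11 : c' ≤ c' * t ^ 5 := Nat.le_mul_of_pos_right _ (by positivity)
        have h12 : 0 < t ^ 5 := by positivity
        calc c' * (500 * Q ^ 3 * t ^ 5) + c' ≤ c' * (500 * Q ^ 3 * t ^ 5) + c' * t ^ 5 := by omega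
          _ < c' * (500 * Q ^ 3 * t ^ 5) + c' * t ^ 5 + t ^ 5 := by omega
          _ = (c' * 500 * Q ^ 3 + c' + 1) * t ^ 5 := by ring
          _ = t ^ 6 := by rw [← ht]; ring
      omega

end Pool.Agent.Results.MP_eff972_al.NonPolyAutGrowth
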